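import Pool.Agent.H343.QF.StG

set_option autoImplicit false

/-! # MP_9a852a_al, G16: matching of two corner paths -/

namespace Pool.Agent.H295.QF

open Pool.Agent.TH68 Pool.Agent.Helper97.Hyp Pool.Agent.H343.AN Pool.Agent.H343.QF

theorem run_mem {Γ : Type} [Group Γ] {a x y z : Γ} (h1 : x⁻¹ * y ∈ Subgroup.zpowers a)
    (h2 : x⁻¹ * z ∈ Subgroup.zpowers a) : y⁻¹ * z ∈ Subgroup.zpowers a := by
  have h := (Subgroup.zpowers a).mul_mem ((Subgroup.zpowers a).inv_mem h1) h2
  have e : (x⁻¹ * y)⁻¹ * (x⁻¹ * z) = y⁻¹ * z := by group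
  rwa [e] at h

theorem run_mem' {Γ : Type} [Group Γ] {a x y z : Γ} (h1 : x⁻¹ * z ∈ Subgroup.zpowers a)
    (h2 : y⁻¹ * z ∈ Subgroup.zpowers a) : x⁻¹ * y ∈ Subgroup.zpowers a := by
  have h := (Subgroup.zpowers a).mul_mem h1 ((Subgroup.zpowers a).inv_mem h2)
  have e : x⁻¹ * z * (y⁻¹ * z)⁻¹ = x⁻¹ * y := by group
  rwa [e] at h

theorem run (hdl : S_dl) (hadj : S_adj) : S_run := by
  intro Γ _ W a b δ D R X X' lam lam' s s' E Λ hX hX' j₁ j₂ hj hm
  classical
  have hch : ∀ j, ∃ m, j₁ ≤ j → j ≤ j₂ → (X j)⁻¹ * X' m ∈ Subgroup.zpowers a := by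
    intro j
    by_cases h : j₁ ≤ j ∧ j ≤ j₂
    · obtain ⟨m, hm⟩ := hm j h.1 h.2
      exact ⟨m, fun _ _ => hm⟩
    · exact ⟨0, fun h1 h2 => absurd ⟨h1, h2⟩ h⟩
  choose m hm using hch
  -- different indices
  have hinj : ∀ j k, j₁ ≤ j → j ≤ j₂ → j₁ ≤ k → k ≤ j₂ → m j = m k → j = k := by
    intro j k h1 h2 h3 h4 h5
    have e1 := hm j h1 h2
    have e2 := hm k h3 h4
    rw [← h5] at e2
    exact hdl hX j k (run_mem' e1 e2)
  -- steps
  have hstep : ∀ j, j₁ ≤ j → j + 1 ≤ j₂ → m (j + 1) - m j = 1 ∨ m (j + 1) - m j = -1 := by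
    intro j h1 h2
    have e1 := hm j h1 (by omega)
    have e2 := hm (j + 1) (by omega) h2
    have c1 : (X' (m j))⁻¹ * (X j * a ^ lam j) ∈ Subgroup.zpowers a := by
      have h3 := (Subgroup.zpowers a).mul_mem ((Subgroup.zpowers a).inv_mem e1)
        (Subgroup.npow_mem_zpowers a (lam j))
      have e : ((X j)⁻¹ * X' (m j))⁻¹ * a ^ lam j = (X' (m j))⁻¹ * (X j * a ^ lam j) := by group
      rwa [e] at h3
    have c2 : (X' (m (j + 1)))⁻¹ * X (j + 1) ∈ Subgroup.zpowers a := by
      have h3 := (Subgroup.zpowers a).inv_mem e2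
      have e : ((X (j + 1))⁻¹ * X' (m (j + 1)))⁻¹ = (X' (m (j + 1)))⁻¹ * X (j + 1) := by group
      rwa [e] at h3
    have hd : dist (pt W (X j * a ^ lam j)) (pt W (X (j + 1))) ≤ 10 * (D + R) := by
      rw [dist_def, out_pt, out_pt]
      have e : (X j * a ^ lam j)⁻¹ * X (j + 1) = s j := by
        rw [hX.cor.step j]
        group
      rw [e]
      have h3 := hX.cor.short j
      have h4 := hX.hR
      have h5 := hX.good.one
      have h6 := hX.good.le
      linarith
    have hab := hadj hX' (m j) (m (j + 1)) _ _ c1 c2 hd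
    have hne : m j ≠ m (j + 1) := by
      intro h
      have := hinj j (j + 1) h1 (by omega) (by omega) h2 h
      omega
    rw [abs_le] at hab
    omega
  -- the direction is constant
  by_cases h12 : j₁ = j₂
  · refine ⟨m j₁, 1, Or.inl rfl, fun j h1 h2 => ?_⟩
    have : j = j₁ := by omega
    rw [this]
    have e := hm j₁ le_rfl hj
    have e2 : m j₁ + 1 * (j₁ - j₁) = m j₁ := by ring
    rw [e2]
    exact e
  · have hlt : j₁ + 1 ≤ j₂ := by omega
    have hconst : ∀ n : ℕ, j₁ + n + 1 ≤ j₂ → m (j₁ + n + 1) - m (j₁ + n) = m (j₁ + 1) - m j₁ := by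
      intro n
      induction n with
      | zero => intro _; simp
      | succ n ih =>
        intro h
        have h1 : j₁ + (n : ℤ) + 1 + 1 ≤ j₂ := by push_cast at h; linarith
        have ih := ih (by omega)
        have s1 := hstep (j₁ + n) (by omega) (by omega)
        have s2 := hstep (j₁ + n + 1) (by omega) (by omega)
        have hne : m (j₁ + n) ≠ m (j₁ + n + 1 + 1) := by
          intro h2
          have := hinj _ _ (by omega) (by omega) (by omega) (by omega) h2
          omega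
        have e : j₁ + ((n + 1 : ℕ) : ℤ) = j₁ + n + 1 := by push_cast; ring
        rw [e]
        omega
    have hval : ∀ n : ℕ, j₁ + n ≤ j₂ → m (j₁ + n) = m j₁ + (m (j₁ + 1) - m j₁) * n := by
      intro n
      induction n with
      | zero => intro _; simp
      | succ n ih =>
        intro h
        have h1 : j₁ + (n : ℤ) + 1 ≤ j₂ := by push_cast at h; linarith
        have ih := ih (by omega)
        have hc := hconst n h1
        have e : j₁ + ((n + 1 : ℕ) : ℤ) = j₁ + n + 1 := by push_cast; ring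
        rw [e]
        push_cast
        linarith
    refine ⟨m j₁, m (j₁ + 1) - m j₁, hstep j₁ le_rfl hlt, fun j h1 h2 => ?_⟩
    obtain ⟨n, hn⟩ : ∃ n : ℕ, j = j₁ + n := ⟨(j - j₁).toNat, by omega⟩
    have h3 := hval n (by omega)
    have e : j - j₁ = n := by omega
    rw [e, ← h3, hn]
    exact hm _ (by omega) (by omega)

end Pool.Agent.H295.QF
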